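import Pool.Agent.R82.KP.Defs

/-! # Indicator sums and the existence of coverings -/

namespace Pool.Agent.R82.KP

open Finset

variable {n k : ℕ}

/-- The indicator of a transversal, summed over all assignments of parts. -/
noncomputable def cov (X : Fin k → Finset (Fin n)) (z : Fin k → Fin n) : ℝ :=
  ∑ σ : Equiv.Perm (Fin k), ∏ a, (if z a ∈ X (σ a) then (1 : ℝ) else 0)

theorem cov_noninj {X : Fin k → Finset (Fin n)}
    (hX : ∀ j j', j ≠ j' → Disjoint (X j) (X j')) {z : Fin k → Fin n}
    (hz : ¬ Function.Injective z) : cov X z = 0 := by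
  classical
  unfold cov
  refine Finset.sum_eq_zero fun σ _ => ?_
  rw [Function.Injective] at hz
  push Not at hz
  obtain ⟨a, b, hab, hne⟩ := hz
  by_cases ha : z a ∈ X (σ a)
  · refine Finset.prod_eq_zero (Finset.mem_univ b) (if_neg fun hb => ?_)
    have := Finset.disjoint_left.1 (hX (σ a) (σ b) (fun h => hne (σ.injective h))) ha
    rw [hab] at this
    exact this hb
  · exact Finset.prod_eq_zero (Finset.mem_univ a) (if_neg ha)

open Classical in
theorem cov_inj {X : Fin k → Finset (Fin n)}
    (hX : ∀ j j', j ≠ j' → Disjoint (X j) (X j')) {z : Fin k → Fin n}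
    (hz : Function.Injective z) :
    cov X z = if IsEdge X (univ.image z) then 1 else 0 := by
  unfold cov
  have h1 : ∀ σ : Equiv.Perm (Fin k), (∏ a, (if z a ∈ X (σ a) then (1 : ℝ) else 0))
      = if (∀ a, z a ∈ X (σ a)) then 1 else 0 := by
    intro σ
    by_cases h : ∀ a, z a ∈ X (σ a)
    · rw [if_pos h]
      exact Finset.prod_eq_one fun a _ => if_pos (h a)
    · rw [if_neg h]
      push Not at h
      obtain ⟨a, ha⟩ := h
      exact Finset.prod_eq_zero (Finset.mem_univ a) (if_neg ha)
  simp_rw [h1]
  by_cases he : IsEdge X (univ.image z)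
  · rw [if_pos he]
    obtain ⟨x, hx, hxz⟩ := he
    have hs : ∀ a, ∃ s, x s = z a := by
      intro a
      have : z a ∈ univ.image x := by rw [hxz]; exact Finset.mem_image_of_mem _ (Finset.mem_univ a)
      obtain ⟨s, _, hs⟩ := Finset.mem_image.1 this
      exact ⟨s, hs⟩
    choose s hs using hs
    have hsinj : Function.Injective s := by
      intro a b hab
      apply hz
      rw [← hs a, ← hs b, hab]
    let σ0 : Equiv.Perm (Fin k) := Equiv.ofBijective s (Finite.injective_iff_bijective.1 hsinj)
    have hσ0 : ∀ a, z a ∈ X (σ0 a) := by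
      intro a
      have : σ0 a = s a := rfl
      rw [this, ← hs a]
      exact hx (s a)
    rw [Finset.sum_eq_single σ0]
    · rw [if_pos hσ0]
    · intro σ _ hne
      refine if_neg fun hσ => hne ?_
      ext a
      by_contra hcon
      have hc : σ a ≠ σ0 a := fun h => hcon (by rw [h])
      exact Finset.disjoint_left.1 (hX (σ a) (σ0 a) hc) (hσ a) (hσ0 a)
    · intro h; exact absurd (Finset.mem_univ _) h
  · rw [if_neg he]
    refine Finset.sum_eq_zero fun σ _ => if_neg fun hσ => he ?_
    refine ⟨fun j => z (σ.symm j), fun j => ?_, ?_⟩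
    · have := hσ (σ.symm j)
      rwa [Equiv.apply_symm_apply] at this
    · ext v
      simp only [Finset.mem_image, Finset.mem_univ, true_and]
      constructor
      · rintro ⟨j, hj⟩; exact ⟨_, hj⟩
      · rintro ⟨a, ha⟩; exact ⟨σ a, by rw [Equiv.symm_apply_apply, ha]⟩

open Classical in
/-- A covering indexed by a finite type gives a covering in the sense of the definition. -/
theorem exists_covering {ι : Type} [Fintype ι] {l : ℕ} (H : ι → Fin k → Finset (Fin n))
    (h1 : ∀ i j, (H i j).Nonempty) (h2 : ∀ i j j', j ≠ j' → Disjoint (H i j) (H i j'))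
    (h3 : ∀ e : Finset (Fin n), e.card = k →
      1 ≤ (Finset.univ.filter fun i => IsEdge (H i) e).card ∧
        (Finset.univ.filter fun i => IsEdge (H i) e).card ≤ l) :
    ∃ H' : Fin (Fintype.card ι) → Fin k → Finset (Fin n),
      IsCovering n k l (Fintype.card ι) H' := by
  let E := Fintype.equivFin ι
  refine ⟨fun i => H (E.symm i), fun i j => h1 _ j, fun i j j' h => h2 _ j j' h, fun e he => ?_⟩
  have : (Finset.univ.filter fun i => IsEdge (H (E.symm i)) e).card
      = (Finset.univ.filter fun i => IsEdge (H i) e).card := by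
    refine Finset.card_bij (fun i _ => E.symm i) ?_ ?_ ?_
    · intro i hi
      simp only [Finset.mem_filter, Finset.mem_univ, true_and] at hi ⊢
      exact hi
    · intro i _ i' _ h; exact E.symm.injective h
    · intro i hi
      refine ⟨E i, ?_, by simp⟩
      simp only [Finset.mem_filter, Finset.mem_univ, true_and, Equiv.symm_apply_apply] at hi ⊢
      exact hi
  rw [this]
  exact h3 e he

theorem minCovering_le {ι : Type} [Fintype ι] {l : ℕ} (H : ι → Fin k → Finset (Fin n))
    (h1 : ∀ i j, (H i j).Nonempty) (h2 : ∀ i j j', j ≠ j' → Disjoint (H i j) (H i j'))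
    (h3 : ∀ e : Finset (Fin n), e.card = k →
      (∃ i, IsEdge (H i) e) ∧ ∀ S : Finset ι, (∀ i ∈ S, IsEdge (H i) e) → S.card ≤ l) :
    minCovering k l n ≤ Fintype.card ι := by
  classical
  refine Nat.sInf_le (exists_covering H h1 h2 fun e he => ⟨?_, ?_⟩)
  · obtain ⟨i, hi⟩ := (h3 e he).1
    rw [Nat.succ_le_iff, Finset.card_pos]
    exact ⟨i, Finset.mem_filter.2 ⟨Finset.mem_univ _, hi⟩⟩
  · exact (h3 e he).2 _ fun i hi => (Finset.mem_filter.1 hi).2

/-- Coverings exist. -/
theorem covering_nonempty (k l n : ℕ) (hl : 1 ≤ l) :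
    {m | ∃ H : Fin m → Fin k → Finset (Fin n), IsCovering n k l m H}.Nonempty := by
  classical
  let ι := {e : Finset (Fin n) // e.card = k}
  let H : ι → Fin k → Finset (Fin n) := fun e j => {e.1.orderEmbOfFin e.2 j}
  have hE : ∀ (i : ι) (e : Finset (Fin n)), IsEdge (H i) e ↔ i.1 = e := by
    intro i e
    have him : univ.image (i.1.orderEmbOfFin i.2) = i.1 := by
      rw [← Finset.coe_inj]
      simp [Finset.range_orderEmbOfFin]
    constructor
    · rintro ⟨x, hx, hxe⟩
      have : x = i.1.orderEmbOfFin i.2 := by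
        funext j
        have := hx j
        simpa [H] using this
      rw [← hxe, this, him]
    · rintro rfl
      exact ⟨i.1.orderEmbOfFin i.2, fun j => by simp [H], him⟩
  refine ⟨_, exists_covering H (fun i j => ⟨_, Finset.mem_singleton_self _⟩) ?_ ?_⟩
  · intro i j j' hj
    rw [Finset.disjoint_singleton]
    exact fun h => hj ((i.1.orderEmbOfFin i.2).injective h)
  · intro e he
    have : (Finset.univ.filter fun i : ι => IsEdge (H i) e) = {⟨e, he⟩} := by
      ext i
      simp only [Finset.mem_filter, Finset.mem_univ, true_and, hE, Finset.mem_singleton]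
      constructor
      · rintro h; exact Subtype.ext h
      · rintro rfl; rfl
    rw [this, Finset.card_singleton]
    exact ⟨le_rfl, hl⟩

end Pool.Agent.R82.KP
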