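import Mathlib

/-! # Coverings of the complete `k`-graph by complete `k`-partite `k`-graphs -/

namespace Pool.Agent.R82.KP

/-- `e` is an edge of the complete `k`-partite `k`-graph with parts `X 0, …, X (k-1)`:
it consists of one vertex of each part. -/
def IsEdge {n k : ℕ} (X : Fin k → Finset (Fin n)) (e : Finset (Fin n)) : Prop :=
  ∃ x : Fin k → Fin n, (∀ j, x j ∈ X j) ∧ Finset.univ.image x = e

open Classical in
/-- `m` complete `k`-partite `k`-graphs on vertex subsets of `Fin n` (`H i j` is the `j`-th part
of the `i`-th one; parts of one graph are nonempty and pairwise disjoint) form a covering of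
order `l`: each `k`-subset of `Fin n` is an edge of at least one and at most `l` of them. -/
def IsCovering (n k l m : ℕ) (H : Fin m → Fin k → Finset (Fin n)) : Prop :=
  (∀ i j, (H i j).Nonempty) ∧ (∀ i j j', j ≠ j' → Disjoint (H i j) (H i j')) ∧
    ∀ e : Finset (Fin n), e.card = k →
      1 ≤ (Finset.univ.filter fun i => IsEdge (H i) e).card ∧
        (Finset.univ.filter fun i => IsEdge (H i) e).card ≤ l

/-- `m_{k,l}(n)`: the least number of complete `k`-partite `k`-graphs in a `k`-partite covering
of order `l` of the complete `k`-graph on `n` vertices. -/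
noncomputable def minCovering (k l n : ℕ) : ℕ :=
  sInf {m | ∃ H : Fin m → Fin k → Finset (Fin n), IsCovering n k l m H}

/-- The matrix with entries `∏ [x g ≠ y g]` has an inverse, hence it has no factorisation
through fewer than `q ^ j` indices. -/
theorem card_le_of_factor {j q : ℕ} (hq : 2 ≤ q) {τ : Type} [Fintype τ]
    (F : (Fin j → Fin q) → τ → ℝ) (G : τ → (Fin j → Fin q) → ℝ)
    (h : ∀ X Y, (∏ g, (if X g ≠ Y g then (1 : ℝ) else 0)) = ∑ t, F X t * G t Y) :
    q ^ j ≤ Fintype.card τ := by
  classical
  let A : Matrix (Fin j → Fin q) τ ℝ := Matrix.of F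
  let B : Matrix τ (Fin j → Fin q) ℝ := Matrix.of G
  let K : Matrix (Fin j → Fin q) (Fin j → Fin q) ℝ :=
    Matrix.of fun Y Z => ∏ g, (1 / ((q : ℝ) - 1) - if Y g = Z g then (1 : ℝ) else 0)
  have hq1 : (q : ℝ) - 1 ≠ 0 := by
    have : (2 : ℝ) ≤ q := by exact_mod_cast hq
    linarith
  have key : A * (B * K) = 1 := by
    ext X Z
    rw [← Matrix.mul_assoc, Matrix.mul_apply]
    have h1 : ∀ Y, (A * B) X Y = ∏ g, (if X g ≠ Y g then (1 : ℝ) else 0) := by
      intro Y; rw [Matrix.mul_apply, h X Y]; rfl
    simp_rw [h1]
    have h2 : ∀ Y : Fin j → Fin q, (∏ g, (if X g ≠ Y g then (1 : ℝ) else 0)) * K Y Z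
        = ∏ g, ((if X g ≠ Y g then (1 : ℝ) else 0) *
          (1 / ((q : ℝ) - 1) - if Y g = Z g then (1 : ℝ) else 0)) := by
      intro Y; simp only [K, Matrix.of_apply, Finset.prod_mul_distrib]
    simp_rw [h2]
    rw [← Fintype.piFinset_univ, ← Finset.prod_univ_sum (fun _ => Finset.univ)
      (fun g y => (if X g ≠ y then (1 : ℝ) else 0) *
          (1 / ((q : ℝ) - 1) - if y = Z g then (1 : ℝ) else 0))]
    have h3 : ∀ a b : Fin q, ∑ y : Fin q, (if a ≠ y then (1 : ℝ) else 0) *
          (1 / ((q : ℝ) - 1) - if y = b then (1 : ℝ) else 0) = if a = b then 1 else 0 := by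
      intro a b
      have e1 : ∀ y : Fin q, (if a ≠ y then (1 : ℝ) else 0) *
          (1 / ((q : ℝ) - 1) - if y = b then (1 : ℝ) else 0)
          = (1 / ((q : ℝ) - 1)) - (1 / ((q : ℝ) - 1)) * (if a = y then 1 else 0)
            - (if y = b then (if a ≠ b then (1 : ℝ) else 0) else 0) := by
        intro y
        by_cases hy : a = y
        · subst hy
          by_cases hb : a = b
          · simp [hb]
          · simp [hb]
        · by_cases hb : y = b
          · subst hb; simp [hy]
          · simp [hy, hb]
      simp_rw [e1]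
      rw [Finset.sum_sub_distrib, Finset.sum_sub_distrib, ← Finset.mul_sum]
      simp only [Finset.sum_const, Finset.card_univ, Fintype.card_fin, Finset.sum_ite_eq,
        Finset.mem_univ, if_true, nsmul_eq_mul, Finset.sum_ite_eq']
      by_cases hab : a = b
      · simp only [hab, ne_eq, not_true_eq_false, if_false, if_true]
        field_simp
        ring
      · simp only [hab, ne_eq, not_false_eq_true, if_true, if_false]
        field_simp
        ring
    simp_rw [h3]
    rw [Matrix.one_apply]
    by_cases hXZ : X = Z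
    · subst hXZ; simp
    · have : ∃ g, X g ≠ Z g := by
        by_contra hcon
        push Not at hcon
        exact hXZ (funext hcon)
      obtain ⟨g, hg⟩ := this
      rw [if_neg hXZ]
      exact Finset.prod_eq_zero (Finset.mem_univ g) (if_neg hg)
  have h4 : (A * (B * K)).rank ≤ Fintype.card τ :=
    (Matrix.rank_mul_le_left _ _).trans (Matrix.rank_le_card_width A)
  rw [key, Matrix.rank_one] at h4
  simpa using h4

end Pool.Agent.R82.KP
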