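import Pool.Agent.R82.KP.Cov

/-! # The lower bound: `q ^ (k / 2) ≤ (m k! + 1) ^ l + 1` -/

namespace Pool.Agent.R82.KP

open Finset

/-- Block and offset of the `a`-th vertex of the tuple given by `X` and `Y`. -/
def cd {j q : ℕ} (X Y : Fin j → Fin q) (a : ℕ) : ℕ × ℕ :=
  if h : a < j then (a, (X ⟨a, h⟩ : ℕ))
  else if h2 : a < 2 * j then (a - j, (Y ⟨a - j, by omega⟩ : ℕ)) else (j, 0)

theorem cd_snd {j q : ℕ} (hq : 0 < q) (X Y : Fin j → Fin q) (a : ℕ) : (cd X Y a).2 < q := by
  unfold cd
  split_ifs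
  · exact (X _).2
  · exact (Y _).2
  · exact hq

theorem cd_pos {j q : ℕ} (X Y : Fin j → Fin q) (a : ℕ) :
    (cd X Y a).1 * q + (cd X Y a).2 ≤ j * q := by
  unfold cd
  split_ifs with h h2
  · have h1 := (X ⟨a, h⟩).2
    have : (a + 1) * q ≤ j * q := Nat.mul_le_mul_right _ h
    simp only
    nlinarith
  · have h1 := (Y ⟨a - j, by omega⟩).2
    have : (a - j + 1) * q ≤ j * q := Nat.mul_le_mul_right _ (by omega)
    simp only
    nlinarith
  · simp

theorem pos_inj {q g x g' x' : ℕ} (hx : x < q) (hx' : x' < q) (h : g * q + x = g' * q + x') :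
    g = g' ∧ x = x' := by
  have hg : g = g' := by
    rcases Nat.lt_trichotomy g g' with hlt | heq | hlt
    · have : (g + 1) * q ≤ g' * q := Nat.mul_le_mul_right _ hlt
      nlinarith
    · exact heq
    · have : (g' + 1) * q ≤ g * q := Nat.mul_le_mul_right _ hlt
      nlinarith
  subst hg
  exact ⟨rfl, by omega⟩

/-- The tuple of `k` vertices given by `X` and `Y`. -/
def zt {n j q : ℕ} (k : ℕ) (hn : j * q < n) (X Y : Fin j → Fin q) (a : Fin k) : Fin n :=
  ⟨(cd X Y a).1 * q + (cd X Y a).2, lt_of_le_of_lt (cd_pos X Y a) hn⟩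

theorem zt_inj {n j q k : ℕ} (hk : k ≤ 2 * j + 1) (hn : j * q < n) {X Y : Fin j → Fin q}
    (h : ∀ g, X g ≠ Y g) : Function.Injective (zt k hn X Y) := by
  rcases Nat.eq_zero_or_pos q with hq | hq
  · subst hq
    rcases Nat.eq_zero_or_pos j with hj | hj
    · subst hj
      intro a b _
      apply Fin.ext
      have := a.2; have := b.2; omega
    · exact ((X ⟨0, hj⟩).elim0)
  intro a b hab
  have h1 : (cd X Y a).1 * q + (cd X Y a).2 = (cd X Y b).1 * q + (cd X Y b).2 :=
    congrArg Fin.val hab
  obtain ⟨h2, h3⟩ := pos_inj (cd_snd hq X Y a) (cd_snd hq X Y b) h1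
  have ha := a.2
  have hb := b.2
  apply Fin.ext
  unfold cd at h2 h3
  by_cases ha1 : (a : ℕ) < j
  · by_cases hb1 : (b : ℕ) < j
    · simp only [ha1, hb1, dif_pos] at h2
      exact h2
    · by_cases hb2 : (b : ℕ) < 2 * j
      · simp only [ha1, hb1, hb2, dif_pos, dif_neg, not_false_eq_true] at h2 h3
        exfalso
        apply h ⟨a, ha1⟩
        apply Fin.ext
        rw [h3]
        congr 3
        exact h2.symm
      · simp only [ha1, hb1, hb2, dif_pos, dif_neg, not_false_eq_true] at h2
        omega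
  · by_cases ha2 : (a : ℕ) < 2 * j
    · by_cases hb1 : (b : ℕ) < j
      · simp only [ha1, ha2, hb1, dif_pos, dif_neg, not_false_eq_true] at h2 h3
        exfalso
        apply h ⟨b, hb1⟩
        apply Fin.ext
        rw [← h3]
        congr 3
      · by_cases hb2 : (b : ℕ) < 2 * j
        · simp only [ha1, ha2, hb1, hb2, dif_pos, dif_neg, not_false_eq_true] at h2
          omega
        · simp only [ha1, ha2, hb1, hb2, dif_pos, dif_neg, not_false_eq_true] at h2
          omega
    · by_cases hb1 : (b : ℕ) < j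
      · simp only [ha1, ha2, hb1, dif_pos, dif_neg, not_false_eq_true] at h2
        omega
      · by_cases hb2 : (b : ℕ) < 2 * j
        · simp only [ha1, ha2, hb1, hb2, dif_pos, dif_neg, not_false_eq_true] at h2
          omega
        · omega

theorem zt_noninj {n j q k : ℕ} (hk : 2 * j ≤ k) (hn : j * q < n) {X Y : Fin j → Fin q}
    {g : Fin j} (h : X g = Y g) : ¬ Function.Injective (zt k hn X Y) := by
  intro hinj
  have hg := g.2
  have h1 : zt k hn X Y ⟨g, by omega⟩ = zt k hn X Y ⟨g + j, by omega⟩ := by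
    apply Fin.ext
    have e1 : cd X Y (g : ℕ) = ((g : ℕ), (X g : ℕ)) := by simp [cd]
    have e2 : cd X Y ((g : ℕ) + j) = ((g : ℕ), (Y g : ℕ)) := by
      unfold cd
      rw [dif_neg (by omega), dif_pos (by omega)]
      simp
    simp only [zt, e1, e2, h]
  have h2 := hinj h1
  have h3 := congrArg Fin.val h2
  simp only at h3
  omega

/-- The part of the indicator which depends on `X`. -/
noncomputable def Phi {n j q k : ℕ} (hn : j * q < n) (P : Fin k → Finset (Fin n))
    (σ : Equiv.Perm (Fin k)) (X : Fin j → Fin q) : ℝ :=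
  ∏ a : Fin k, if (a : ℕ) < j then (if zt k hn X X a ∈ P (σ a) then (1 : ℝ) else 0) else 1

/-- The part of the indicator which depends on `Y`. -/
noncomputable def Psi {n j q k : ℕ} (hn : j * q < n) (P : Fin k → Finset (Fin n))
    (σ : Equiv.Perm (Fin k)) (Y : Fin j → Fin q) : ℝ :=
  ∏ a : Fin k, if (a : ℕ) < j then 1 else (if zt k hn Y Y a ∈ P (σ a) then (1 : ℝ) else 0)

theorem cov_split {n j q k : ℕ} (hn : j * q < n) (P : Fin k → Finset (Fin n))
    (X Y : Fin j → Fin q) :
    cov P (zt k hn X Y) = ∑ σ : Equiv.Perm (Fin k), Phi hn P σ X * Psi hn P σ Y := by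
  unfold cov Phi Psi
  refine Finset.sum_congr rfl fun σ _ => ?_
  rw [← Finset.prod_mul_distrib]
  refine Finset.prod_congr rfl fun a _ => ?_
  by_cases ha : (a : ℕ) < j
  · have : zt k hn X Y a = zt k hn X X a := by
      apply Fin.ext
      simp [zt, cd, ha]
    simp [ha, this]
  · have : zt k hn X Y a = zt k hn Y Y a := by
      apply Fin.ext
      simp [zt, cd, ha]
    simp [ha, this]

theorem rank_bound {n k l m j q : ℕ} (hj1 : 2 * j ≤ k) (hj2 : k ≤ 2 * j + 1) (hn : j * q < n)
    (hq : 2 ≤ q) (H : Fin m → Fin k → Finset (Fin n)) (hH : IsCovering n k l m H) :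
    q ^ j ≤ (m * k.factorial + 1) ^ l + 1 := by
  classical
  obtain ⟨-, h2, h3⟩ := hH
  let τ := Fin m × Equiv.Perm (Fin k)
  let c : (Fin j → Fin q) → (Fin j → Fin q) → ℝ := fun X Y =>
    ∑ t : τ, Phi hn (H t.1) t.2 X * Psi hn (H t.1) t.2 Y
  have hc : ∀ X Y, c X Y = ∑ i : Fin m, cov (H i) (zt k hn X Y) := by
    intro X Y
    simp only [c]
    rw [Fintype.sum_prod_type]
    exact Finset.sum_congr rfl fun i _ => (cov_split hn (H i) X Y).symm
  have hmain : ∀ X Y : Fin j → Fin q, (∏ g, (if X g ≠ Y g then (1 : ℝ) else 0))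
      = 1 - ∏ a : Fin l, (1 - c X Y / ((a : ℕ) + 1)) := by
    intro X Y
    by_cases h : ∀ g, X g ≠ Y g
    · have hinj := zt_inj hj2 hn h
      rw [Finset.prod_eq_one (fun g _ => if_pos (h g))]
      have hcard : (univ.image (zt k hn X Y)).card = k := by
        rw [Finset.card_image_of_injective _ hinj]; simp
      obtain ⟨hlo, hhi⟩ := h3 _ hcard
      have hcv : c X Y = ((univ.filter fun i => IsEdge (H i) (univ.image (zt k hn X Y))).card : ℝ) := by
        rw [hc, Finset.card_filter]
        push_cast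
        refine Finset.sum_congr rfl fun i _ => ?_
        rw [cov_inj (h2 i) hinj]
      set N := (univ.filter fun i => IsEdge (H i) (univ.image (zt k hn X Y))).card with hN
      have hz : (∏ a : Fin l, (1 - c X Y / ((a : ℕ) + 1))) = 0 := by
        refine Finset.prod_eq_zero (Finset.mem_univ ⟨N - 1, by omega⟩) ?_
        rw [hcv]
        have : ((N - 1 : ℕ) : ℝ) + 1 = (N : ℝ) := by
          have : N - 1 + 1 = N := by omega
          exact_mod_cast this
        simp only
        rw [this, div_self, sub_self]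
        have : 0 < N := by omega
        positivity
      rw [hz, sub_zero]
    · push Not at h
      obtain ⟨g, hg⟩ := h
      have hnon := zt_noninj hj1 hn hg
      have h0 : c X Y = 0 := by
        rw [hc]
        exact Finset.sum_eq_zero fun i _ => cov_noninj (h2 i) hnon
      rw [Finset.prod_eq_zero (Finset.mem_univ g) (if_neg (by simpa using hg)), h0]
      simp
  let fo : (Fin j → Fin q) → Fin l → Option τ → ℝ := fun X a o =>
    o.elim 1 fun t => (-(1 / (((a : ℕ) : ℝ) + 1))) * Phi hn (H t.1) t.2 X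
  let go : (Fin j → Fin q) → Option τ → ℝ := fun Y o => o.elim 1 fun t => Psi hn (H t.1) t.2 Y
  have hexp : ∀ X Y : Fin j → Fin q, (∏ a : Fin l, (1 - c X Y / ((a : ℕ) + 1)))
      = ∑ w : Fin l → Option τ, (∏ a, fo X a (w a)) * (∏ a, go Y (w a)) := by
    intro X Y
    have h1 : ∀ a : Fin l, (1 - c X Y / (((a : ℕ) : ℝ) + 1)) = ∑ o : Option τ, fo X a o * go Y o := by
      intro a
      rw [Fintype.sum_option]
      simp only [fo, go, Option.elim, c]
      rw [Finset.sum_div]
      rw [mul_one, sub_eq_add_neg, ← Finset.sum_neg_distrib]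
      congr 1
      refine Finset.sum_congr rfl fun t _ => ?_
      ring
    simp_rw [h1]
    rw [Finset.prod_univ_sum, Fintype.piFinset_univ]
    refine Finset.sum_congr rfl fun w _ => ?_
    rw [Finset.prod_mul_distrib]
  have hfin := card_le_of_factor (j := j) (q := q) hq (τ := Option (Fin l → Option τ))
    (fun X o => o.elim 1 fun w => -∏ a, fo X a (w a))
    (fun o Y => o.elim 1 fun w => ∏ a, go Y (w a)) (by
      intro X Y
      rw [hmain X Y, hexp X Y, Fintype.sum_option]
      simp only [Option.elim, mul_one]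
      rw [sub_eq_add_neg, ← Finset.sum_neg_distrib]
      congr 1
      refine Finset.sum_congr rfl fun w _ => ?_
      ring)
  have hcard : Fintype.card (Option (Fin l → Option τ)) = (m * k.factorial + 1) ^ l + 1 := by
    simp [τ, Fintype.card_option, Fintype.card_perm]
  rw [hcard] at hfin
  exact hfin

end Pool.Agent.R82.KP
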